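import Mathlib

/-!
Project MX (MP_d797f5_an, Erdos, points of maximum modulus, liminf): definitions and the exact
statements of the parts.
-/

set_option autoImplicit false

namespace Pool.Agent.W587.MX

open Set Filter Topology Metric

/-- `Z` is an analytic branch at `a0` of the inverse of `F z = z f'(z)/f(z)`. -/
def Inv (f : ℂ → ℂ) (a0 : ℂ) (Z : ℂ → ℂ) : Prop :=
  AnalyticAt ℂ Z a0 ∧ ∀ᶠ a in 𝓝 a0, f (Z a) ≠ 0 ∧ Z a * deriv f (Z a) = a * f (Z a)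

/-- simple point of the web. -/
def SP (f fs : ℂ → ℂ) (K : ℕ) (a0 : ℂ) (z w : Fin K → ℂ) : Prop :=
  a0 ≠ 0 ∧ Function.Injective z ∧ ∃ Z W : Fin K → ℂ → ℂ,
    (∀ i, Inv f a0 (Z i) ∧ Z i a0 = z i) ∧ (∀ i, Inv fs a0 (W i) ∧ W i a0 = w i) ∧
    (∀ i j, ∀ᶠ a in 𝓝 a0, Z i a * W i a = Z j a * W j a) ∧
    (∀ i, ¬ ∀ᶠ a in 𝓝 a0, Z i a * W i a = z i * w i)

/-- counting bound near `0`. -/
def Cnt (f : ℂ → ℂ) (m : ℕ) (δ : ℝ) : Prop :=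
  0 < δ ∧ ∀ a : ℂ, a ≠ 0 → ∀ s : Finset ℂ,
    (∀ z ∈ s, ‖z‖ < δ ∧ z * deriv f z = a * f z) → s.card ≤ m

/-- punctured ball -/
def PB (η : ℝ) : Set ℂ := {u | 0 < ‖u‖ ∧ ‖u‖ < η}

/-- `g` solves `g f'(g) = A f(g)`, `f(g) ≠ 0`, at every point of `U`. -/
def Sol (f A g : ℂ → ℂ) (U : Set ℂ) : Prop :=
  ∀ u ∈ U, f (g u) ≠ 0 ∧ g u * deriv f (g u) = A u * f (g u)

/-- T1 -/
def T1_UNIQ : Prop := ∀ {X : Type} [TopologicalSpace X] (f : ℂ → ℂ) (a0 : ℂ) (Z : ℂ → ℂ)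
  (g b : X → ℂ) (t0 : X), Differentiable ℂ f → Inv f a0 Z → ContinuousAt g t0 →
  ContinuousAt b t0 → g t0 = Z a0 → b t0 = a0 →
  (∀ᶠ t in 𝓝 t0, g t * deriv f (g t) = b t * f (g t)) → ∀ᶠ t in 𝓝 t0, g t = Z (b t)

/-- T2 -/
def T2_ROOT : Prop := ∀ (G : ℂ → ℂ) (z0 : ℂ), AnalyticAt ℂ G z0 → G z0 = 0 →
  (¬ ∀ᶠ z in 𝓝 z0, G z = 0) →
  ∃ e : ℕ, 1 ≤ e ∧ ∃ φ ψ : ℂ → ℂ, AnalyticAt ℂ φ z0 ∧ AnalyticAt ℂ ψ 0 ∧ φ z0 = 0 ∧ ψ 0 = z0 ∧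
    (∀ᶠ z in 𝓝 z0, ψ (φ z) = z) ∧ (∀ᶠ u in 𝓝 (0 : ℂ), φ (ψ u) = u) ∧
    (∀ᶠ z in 𝓝 z0, G z = φ z ^ e)

/-- T3 -/
def T3_CNT : Prop := ∀ (f : ℂ → ℂ), Differentiable ℂ f → f 0 ≠ 0 → (∃ z, deriv f z ≠ 0) →
  ∃ (m : ℕ) (δ : ℝ), Cnt f m δ

/-- T4: finite branch -/
def T4_BRF : Prop := ∀ (f : ℂ → ℂ) (zs as : ℂ), Differentiable ℂ f → f zs ≠ 0 →
  zs * deriv f zs = as * f zs → (¬ ∀ z, z * deriv f z = as * f z) →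
  ∃ e : ℕ, 1 ≤ e ∧ ∃ η : ℝ, 0 < η ∧ η ≤ 1 ∧ ∀ k : ℕ, 1 ≤ k →
    ∀ᶠ z in 𝓝 zs, ∀ t : ℂ, ‖t‖ < η → z * deriv f z = (as + t ^ (e * k)) * f z →
      ∃ g : ℂ → ℂ, DifferentiableOn ℂ g (ball 0 η) ∧ g 0 = zs ∧ g t = z ∧
        Sol f (fun u => as + u ^ (e * k)) g (ball 0 η)

/-- T5: branch at infinity -/
def T5_BRI : Prop := ∀ (f : ℂ → ℂ) (zs : ℂ), Differentiable ℂ f → (∃ z, f z ≠ 0) →
  f zs = 0 → zs ≠ 0 →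
  ∃ η : ℝ, 0 < η ∧ ∀ᶠ z in 𝓝 zs, ∀ t : ℂ, ‖t‖ < η → t ≠ 0 → f z ≠ 0 →
      z * deriv f z = t⁻¹ * f z →
      ∃ g : ℂ → ℂ, DifferentiableOn ℂ g (ball 0 η) ∧ g 0 = zs ∧ g t = z ∧
        Sol f (fun u => u⁻¹) g (PB η)

/-- T6: nonvanishing propagates -/
def T6_NZ : Prop := ∀ (f h A : ℂ → ℂ) (U : Set ℂ), Differentiable ℂ f → IsOpen U →
  IsPreconnected U → DifferentiableOn ℂ h U → DifferentiableOn ℂ A U → (∀ u ∈ U, h u ≠ 0) →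
  (∀ u ∈ U, h u * deriv f (h u) = A u * f (h u)) → (∃ t ∈ U, f (h t) ≠ 0) →
  ∀ u ∈ U, f (h u) ≠ 0

/-- T7: the disc argument -/
def T7_DISC : Prop := ∀ (f fs : ℂ → ℂ) (K : ℕ) (κ η : ℝ) (A R : ℂ → ℂ) (g h : Fin K → ℂ → ℂ),
  Differentiable ℂ f → Differentiable ℂ fs → 0 < K → 0 < κ → 0 < η →
  (∀ a0 z w, SP f fs K a0 z w → ∀ i, κ ≤ ‖z i * w i‖) →
  DifferentiableOn ℂ A (PB η) → (∀ u ∈ PB η, A u ≠ 0) → (∀ u ∈ PB η, deriv A u ≠ 0) →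
  (∀ i, DifferentiableOn ℂ (g i) (PB η)) → (∀ i, DifferentiableOn ℂ (h i) (PB η)) →
  (∀ i, Sol f A (g i) (PB η)) → (∀ i, Sol fs A (h i) (PB η)) →
  DifferentiableOn ℂ R (ball 0 η) → (∀ i, ∀ u ∈ PB η, g i u * h i u = R u) → ‖R 0‖ = κ →
  (∃ u ∈ ball (0 : ℂ) η, R u ≠ R 0) →
  (∀ i j, i ≠ j → ∃ t ∈ PB η, g i t ≠ g j t) → False

/-- S1: symmetry -/
def S1_SYM : Prop := ∀ (f fs : ℂ → ℂ) (K : ℕ) (a0 : ℂ) (z w : Fin K → ℂ),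
  SP f fs K a0 z w → SP fs f K a0 w z ∧ ∀ i, z i ≠ 0 ∧ w i ≠ 0

/-- S2: the tie near one point -/
def S2_TIE : Prop := ∀ (f fs : ℂ → ℂ) (K : ℕ) (a0 : ℂ) (z w : Fin K → ℂ) (A g h g' : ℂ → ℂ)
  (t0 : ℂ) (i j : Fin K), Differentiable ℂ f → Differentiable ℂ fs → SP f fs K a0 z w →
  ContinuousAt A t0 → A t0 = a0 → ContinuousAt g t0 → ContinuousAt h t0 → ContinuousAt g' t0 →
  g t0 = z i → h t0 = w i → g' t0 = z j →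
  (∀ᶠ u in 𝓝 t0, g u * deriv f (g u) = A u * f (g u)) →
  (∀ᶠ u in 𝓝 t0, h u * deriv fs (h u) = A u * fs (h u)) →
  (∀ᶠ u in 𝓝 t0, g' u * deriv f (g' u) = A u * f (g' u)) →
  ∀ᶠ u in 𝓝 t0, g' u ≠ 0 ∧ fs (g u * h u / g' u) ≠ 0 ∧
    (g u * h u / g' u) * deriv fs (g u * h u / g' u) = A u * fs (g u * h u / g' u)

/-- S3: the product is not constant -/
def S3_NONC : Prop := ∀ (f fs : ℂ → ℂ) (K : ℕ) (a0 : ℂ) (z w : Fin K → ℂ) (A g h : ℂ → ℂ)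
  (t0 : ℂ) (i : Fin K), Differentiable ℂ f → Differentiable ℂ fs → SP f fs K a0 z w →
  AnalyticAt ℂ A t0 → A t0 = a0 → deriv A t0 ≠ 0 → ContinuousAt g t0 → ContinuousAt h t0 →
  g t0 = z i → h t0 = w i →
  (∀ᶠ u in 𝓝 t0, g u * deriv f (g u) = A u * f (g u)) →
  (∀ᶠ u in 𝓝 t0, h u * deriv fs (h u) = A u * fs (h u)) →
  ¬ ∀ᶠ u in 𝓝 t0, g u * h u = g t0 * h t0

/-- S4: simple points can be moved a little -/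
def S4_SHIFT : Prop := ∀ (f fs : ℂ → ℂ) (K : ℕ) (a0 : ℂ) (z w : Fin K → ℂ),
  Differentiable ℂ f → Differentiable ℂ fs → SP f fs K a0 z w → ∀ (b : ℂ) (ε : ℝ), 0 < ε →
  ∃ (a1 : ℂ) (z1 w1 : Fin K → ℂ), SP f fs K a1 z1 w1 ∧ a1 ≠ b ∧ ‖a1 - a0‖ < ε ∧
    ∀ i, ‖z1 i - z i‖ < ε ∧ ‖w1 i - w i‖ < ε ∧ ‖z1 i * w1 i - z i * w i‖ < ε

/-- T8: one simple point together with branches over a disc gives a contradiction -/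
def T8_STEP : Prop := ∀ (f fs : ℂ → ℂ) (K : ℕ) (κ η : ℝ) (A : ℂ → ℂ) (a1 : ℂ) (z w : Fin K → ℂ)
  (t1 : ℂ) (i0 : Fin K) (g0 h0 : ℂ → ℂ), Differentiable ℂ f → Differentiable ℂ fs →
  0 < κ → 0 < η →
  (∀ a0 z w, SP f fs K a0 z w → ∀ i, κ ≤ ‖z i * w i‖) → SP f fs K a1 z w →
  DifferentiableOn ℂ A (PB η) → (∀ u ∈ PB η, A u ≠ 0) → (∀ u ∈ PB η, deriv A u ≠ 0) →
  t1 ∈ PB η → A t1 = a1 → DifferentiableOn ℂ g0 (ball 0 η) → DifferentiableOn ℂ h0 (ball 0 η) →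
  Sol f A g0 (PB η) → Sol fs A h0 (PB η) → g0 t1 = z i0 → h0 t1 = w i0 →
  ‖g0 0 * h0 0‖ = κ →
  (∀ i, (∃ g, DifferentiableOn ℂ g (PB η) ∧ Sol f A g (PB η) ∧ g t1 = z i) ∨
    (∃ h, DifferentiableOn ℂ h (PB η) ∧ Sol fs A h (PB η) ∧ h t1 = w i)) → False

/-- C1: classification of the limits along an ultrafilter -/
def C1_CLS : Prop := ∀ (l : Ultrafilter ℕ) (κ : ℝ) (z w : ℕ → ℂ), 0 < κ →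
  Tendsto (fun n => ‖z n * w n‖) l (𝓝 κ) →
  (Tendsto z l (𝓝 0)) ∨ (Tendsto w l (𝓝 0)) ∨
  (∃ zs ws : ℂ, zs ≠ 0 ∧ ws ≠ 0 ∧ Tendsto z l (𝓝 zs) ∧ Tendsto w l (𝓝 ws) ∧ ‖zs * ws‖ = κ)

/-- C2: limits of `F` -/
def C2_LIM : Prop := ∀ (f : ℂ → ℂ) (l : Ultrafilter ℕ) (z a : ℕ → ℂ) (zs : ℂ),
  Differentiable ℂ f → f 0 ≠ 0 → Tendsto z l (𝓝 zs) →
  (∀ n, f (z n) ≠ 0 ∧ z n * deriv f (z n) = a n * f (z n)) →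
  (f zs ≠ 0 → Tendsto a l (𝓝 (zs * deriv f zs / f zs))) ∧
  (f zs = 0 → Tendsto (fun n => ‖a n‖) l atTop)

/-- C3: some index is neither of type alpha nor of type beta -/
def C3_IDX : Prop := ∀ (f fs : ℂ → ℂ) (m : ℕ) (δ : ℝ) (K : ℕ) (l : Ultrafilter ℕ)
  (a : ℕ → ℂ) (z w : ℕ → Fin K → ℂ), Cnt f m δ → Cnt fs m δ → 2 * m + 1 ≤ K →
  (∀ n, SP f fs K (a n) (z n) (w n)) →
  ∃ i, ¬ Tendsto (fun n => z n i) l (𝓝 0) ∧ ¬ Tendsto (fun n => w n i) l (𝓝 0)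

/-- T9: bounded case -/
def T9_LIMF : Prop := ∀ (f fs : ℂ → ℂ) (m : ℕ) (δ κ : ℝ) (K : ℕ) (l : Ultrafilter ℕ)
  (a : ℕ → ℂ) (z w : ℕ → Fin K → ℂ) (as : ℂ), Differentiable ℂ f → Differentiable ℂ fs →
  f 0 ≠ 0 → fs 0 ≠ 0 → (∃ z, deriv f z ≠ 0) → (∃ z, deriv fs z ≠ 0) →
  Cnt f m δ → Cnt fs m δ → 2 * m + 1 ≤ K → 0 < κ →
  (∀ a0 z w, SP f fs K a0 z w → ∀ i, κ ≤ ‖z i * w i‖) →
  (∀ n, SP f fs K (a n) (z n) (w n)) → (∀ n, a n ≠ as) → Tendsto a l (𝓝 as) →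
  (∀ i, Tendsto (fun n => ‖z n i * w n i‖) l (𝓝 κ)) → False

/-- T10: unbounded case -/
def T10_LIMI : Prop := ∀ (f fs : ℂ → ℂ) (κ : ℝ) (K : ℕ) (l : Ultrafilter ℕ)
  (a : ℕ → ℂ) (z w : ℕ → Fin K → ℂ), Differentiable ℂ f → Differentiable ℂ fs →
  f 0 ≠ 0 → fs 0 ≠ 0 → 1 ≤ K → 0 < κ →
  (∀ a0 z w, SP f fs K a0 z w → ∀ i, κ ≤ ‖z i * w i‖) →
  (∀ n, SP f fs K (a n) (z n) (w n)) → Tendsto (fun n => ‖a n‖) l atTop →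
  (∀ i, Tendsto (fun n => ‖z n i * w n i‖) l (𝓝 κ)) → False

/-- T11: there is no web -/
def T11_NOWEB : Prop := ∀ (f fs : ℂ → ℂ), Differentiable ℂ f → Differentiable ℂ fs →
  f 0 ≠ 0 → fs 0 ≠ 0 → (∃ z, deriv f z ≠ 0) → (∃ z, deriv fs z ≠ 0) →
  ∃ K : ℕ, 0 < K ∧ ∀ a0 z w, ¬ SP f fs K a0 z w

/-- the conjugate function -/
noncomputable def cj (f : ℂ → ℂ) : ℂ → ℂ := fun w => (starRingEnd ℂ) (f ((starRingEnd ℂ) w))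

/-- P1: at a radius where `M` is differentiable all maximum points have the same real `F` -/
def P1_TOUCH : Prop := ∀ (f : ℂ → ℂ) (M : ℝ → ℝ) (r : ℝ), Differentiable ℂ f → 0 < r →
  DifferentiableAt ℝ M r → (∀ w, w ≠ 0 → ‖f w‖ ≤ M ‖w‖) →
  ∀ z, ‖z‖ = r → ‖f z‖ = M r → f z ≠ 0 →
    z * deriv f z = ((r * deriv M r / M r : ℝ) : ℂ) * f z

/-- P2: the maximum modulus and its points of differentiability -/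
def P2_GOOD : Prop := ∀ (f : ℂ → ℂ), Differentiable ℂ f → ∃ M : ℝ → ℝ,
  (∀ w, w ≠ 0 → ‖f w‖ ≤ M ‖w‖) ∧ (∀ r, 0 < r → ∃ z, ‖z‖ = r ∧ ‖f z‖ = M r) ∧
  (∀ r, 0 < r → ‖f 0‖ ≤ M r) ∧ ∀ r, 0 < r → ∃ᶠ s in 𝓝[≠] r, DifferentiableAt ℝ M s

/-- P3: good circles -/
def P3_AVOID : Prop := ∀ (f : ℂ → ℂ), Differentiable ℂ f → f 0 ≠ 0 → (∃ z, deriv f z ≠ 0) →
  ∀ r0 : ℝ, ∃ r : ℝ, r0 < r ∧ 0 < r ∧ ∀ z, ‖z‖ = r → f z ≠ 0 →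
    deriv f z ≠ 0 ∧ deriv (fun z => z * deriv f z / f z) z ≠ 0

/-- P4: conjugation -/
def P4_CONJ : Prop := ∀ (f : ℂ → ℂ), Differentiable ℂ f →
  Differentiable ℂ (cj f) ∧ (∀ w, deriv (cj f) w = (starRingEnd ℂ) (deriv f ((starRingEnd ℂ) w))) ∧
  ∀ (a0 : ℂ) (Z : ℂ → ℂ), Inv f a0 Z → Inv (cj f) ((starRingEnd ℂ) a0) (cj Z)

/-- P5: local inverse -/
def P5_LINV : Prop := ∀ (f : ℂ → ℂ) (z0 : ℂ), Differentiable ℂ f → f z0 ≠ 0 →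
  deriv (fun z => z * deriv f z / f z) z0 ≠ 0 →
  ∃ Z : ℂ → ℂ, Inv f (z0 * deriv f z0 / f z0) Z ∧ Z (z0 * deriv f z0 / f z0) = z0 ∧
    ∀ᶠ z in 𝓝 z0, Z (z * deriv f z / f z) = z

/-- P6: the starting simple point -/
def P6_INIT : Prop := ∀ (f : ℂ → ℂ) (K : ℕ), Differentiable ℂ f → f 0 ≠ 0 →
  (∃ z, deriv f z ≠ 0) → 0 < K →
  (∀ᶠ r : ℝ in atTop, (K : ℕ∞) ≤ {z : ℂ | ‖z‖ = r ∧ ∀ w, ‖w‖ = r → ‖f w‖ ≤ ‖f z‖}.encard) →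
  ∃ a0 z w, SP f (cj f) K a0 z w

/-- P7: reduction to `g 0 = 1` -/
def P7_RED : Prop := ∀ (f : ℂ → ℂ), Differentiable ℂ f → (¬ ∃ (c : ℂ) (m : ℕ), ∀ z, f z = c * z ^ m) →
  ∃ g : ℂ → ℂ, Differentiable ℂ g ∧ g 0 = 1 ∧ (∃ z, deriv g z ≠ 0) ∧
    ∀ r : ℝ, 0 < r → {z : ℂ | ‖z‖ = r ∧ ∀ w, ‖w‖ = r → ‖f w‖ ≤ ‖f z‖} =
      {z : ℂ | ‖z‖ = r ∧ ∀ w, ‖w‖ = r → ‖g w‖ ≤ ‖g z‖}

end Pool.Agent.W587.MX
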