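import Pool.Agent.W587.MX.Stm
import Pool.Prelude.Def_F_ad55464b

set_option autoImplicit false

namespace Pool.Agent.W587.MX

open Set Filter Topology Metric N428632f6

theorem fin (h11 : T11_NOWEB) (p4 : P4_CONJ) (p6 : P6_INIT) (p7 : P7_RED) :
    ¬ (∃ f : ℂ → ℂ, Differentiable ℂ f ∧ IsNonMonomial f ∧
      ∀ N : ℕ, ∀ᶠ r : ℝ in atTop, (N : ℕ∞) ≤ maximumCount f r) := by
  rintro ⟨f, hf, hnm, hN⟩
  obtain ⟨g, hg, hg0, hgne, hset⟩ := p7 f hf hnm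
  obtain ⟨hc1, hc2, -⟩ := p4 g hg
  have hg0' : g 0 ≠ 0 := by rw [hg0]; exact one_ne_zero
  have hc0 : cj g 0 ≠ 0 := by
    simp [cj, hg0]
  have hcne : ∃ z, deriv (cj g) z ≠ 0 := by
    obtain ⟨z, hz⟩ := hgne
    refine ⟨(starRingEnd ℂ) z, ?_⟩
    rw [hc2, Complex.conj_conj]
    exact (map_ne_zero _).2 hz
  obtain ⟨K, hK, hno⟩ := h11 g (cj g) hg hc1 hg0' hc0 hgne hcne
  obtain ⟨a0, z, w, hSP⟩ := p6 g K hg hg0' hgne hK (by
    filter_upwards [hN K, eventually_gt_atTop (0 : ℝ)] with r hr hr0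
    rw [← hset r hr0]
    exact hr)
  exact hno a0 z w hSP

end Pool.Agent.W587.MX
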