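import Pool.Agent.W587.MX.Pb
import Pool.Agent.W587.MX.Fin
import Pool.Agent.W831.MX.Uniq
import Pool.Agent.W490.MX.Root
import Pool.Agent.W847.MX.CNT
import Pool.Agent.W29.MX.Bri
import Pool.Agent.W164.MX.NZ
import Pool.Agent.W2.MX.Disc
import Pool.Agent.W750.MX.TIE
import Pool.Agent.W509.MX.SHIFT
import Pool.Agent.W120.MX.Step
import Pool.Agent.W765.MX.C1C2
import Pool.Agent.W369.MX.C3
import Pool.Agent.W724.MX.Limf
import Pool.Agent.W73.MX.Limi
import Pool.Agent.W885.MX.NoWeb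
import Pool.Agent.W168.MX.Touch
import Pool.Agent.W284.MX.Good
import Pool.Agent.W82.MX.Avoid
import Pool.Agent.W715.MX.Conj
import Pool.Agent.W863.MX.Init
import Pool.Agent.W356.MX.Red

set_option autoImplicit false

namespace Pool.Agent.W587.MX

open N428632f6 Filter

/-- every part assembled, the finite branch still as a hypothesis -/
theorem main (h4 : T4_BRF) :
    ¬ (∃ f : ℂ → ℂ, Differentiable ℂ f ∧ IsNonMonomial f ∧
      ∀ N : ℕ, ∀ᶠ r : ℝ in atTop, (N : ℕ∞) ≤ maximumCount f r) := by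
  have h1 : T1_UNIQ := @W831.MX.t1_uniq
  have h2 : T2_ROOT := W490.MX.root
  have h3 : T3_CNT := W847.MX.t3_cnt h2
  have h5 : T5_BRI := W29.MX.t5_bri
  have h6 : T6_NZ := W164.MX.nz
  have h7 : T7_DISC := W2.MX.disc @h1 isPreconnected_PB
  have s1 : S1_SYM := W750.MX.s1
  have s2 : S2_TIE := W750.MX.s2 @h1
  have s3 : S3_NONC := W750.MX.s3 @h1
  have s4 : S4_SHIFT := W509.MX.shift
  have h8 : T8_STEP := W120.MX.t8_step @h1 h6 h7 s1 s2 s3 isPreconnected_PB
  have c1 : C1_CLS := W765.MXU.c1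
  have c2 : C2_LIM := W765.MXU.c2
  have c3 : C3_IDX := W369.MX.c3_idx s1
  have h9 : T9_LIMF := W724.MX.t9_limf h4 h8 c1 c2 c3
  have h10 : T10_LIMI := W73.MX.limi h5 h8 c1 c2
  have h11 : T11_NOWEB := W885.MX.noweb h3 s1 s4 h9 h10
  have p1 : P1_TOUCH := W168.MX.touch
  have p2 : P2_GOOD := W284.MX.good
  have p3 : P3_AVOID := W82.MX.avoid
  have p4 : P4_CONJ := W715.MX.p4_conj
  have p5 : P5_LINV := W715.MX.p5_linv
  have p6 : P6_INIT := W863.MX.init @h1 p1 p2 p3 p4 p5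
  have p7 : P7_RED := W356.MX.red
  exact fin h11 p4 p6 p7

end Pool.Agent.W587.MX
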