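import Pool.Agent.W587.MX.Stm

set_option autoImplicit false

namespace Pool.Agent.W587.MX

open Set Filter Topology Metric

theorem isOpen_PB (η : ℝ) : IsOpen (PB η) := by
  have : PB η = {u : ℂ | 0 < ‖u‖} ∩ {u : ℂ | ‖u‖ < η} := rfl
  rw [this]
  exact (isOpen_lt continuous_const continuous_norm).inter
    (isOpen_lt continuous_norm continuous_const)

theorem isPreconnected_PB (η : ℝ) : IsPreconnected (PB η) := by
  by_cases hη : 0 < η
  · have h1 : PB η = Complex.exp '' {z : ℂ | z.re < Real.log η} := by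
      ext u
      constructor
      · rintro ⟨h0, h1⟩
        have hu : u ≠ 0 := norm_pos_iff.1 h0
        refine ⟨Complex.log u, ?_, Complex.exp_log hu⟩
        show (Complex.log u).re < Real.log η
        rw [Complex.log_re]
        exact Real.log_lt_log h0 h1
      · rintro ⟨z, hz, rfl⟩
        have hz' : z.re < Real.log η := hz
        refine ⟨by rw [Complex.norm_exp]; exact Real.exp_pos _, ?_⟩
        rw [Complex.norm_exp]
        calc Real.exp z.re < Real.exp (Real.log η) := Real.exp_lt_exp.2 hz'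
          _ = η := Real.exp_log hη
    rw [h1]
    have hc : Convex ℝ {z : ℂ | z.re < Real.log η} := convex_halfSpace_re_lt _
    exact hc.isPreconnected.image _ Complex.continuous_exp.continuousOn
  · have : PB η = ∅ := by
      ext u
      simp only [PB, mem_setOf_eq, mem_empty_iff_false, iff_false, not_and, not_lt]
      intro h
      linarith [not_lt.1 hη]
    rw [this]
    exact isPreconnected_empty

theorem PB_subset_ball (η : ℝ) : PB η ⊆ ball (0 : ℂ) η := by
  intro u hu
  rw [mem_ball_zero_iff]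
  exact hu.2

theorem PB_mono {η η' : ℝ} (h : η ≤ η') : PB η ⊆ PB η' := fun _ hu => ⟨hu.1, lt_of_lt_of_le hu.2 h⟩

/-- identity theorem on the punctured ball -/
theorem ident_PB {η : ℝ} {p q : ℂ → ℂ} (hp : DifferentiableOn ℂ p (PB η))
    (hq : DifferentiableOn ℂ q (PB η)) {t : ℂ} (ht : t ∈ PB η) (h : ∀ᶠ u in 𝓝 t, p u = q u) :
    ∀ u ∈ PB η, p u = q u :=
  (hp.analyticOnNhd (isOpen_PB η)).eqOn_of_preconnected_of_eventuallyEq
    (hq.analyticOnNhd (isOpen_PB η)) (isPreconnected_PB η) ht h

/-- identity theorem on the ball -/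
theorem ident_ball {η : ℝ} {p q : ℂ → ℂ} (hp : DifferentiableOn ℂ p (ball 0 η))
    (hq : DifferentiableOn ℂ q (ball 0 η)) {t : ℂ} (ht : t ∈ ball (0 : ℂ) η)
    (h : ∀ᶠ u in 𝓝 t, p u = q u) : ∀ u ∈ ball (0 : ℂ) η, p u = q u :=
  (hp.analyticOnNhd isOpen_ball).eqOn_of_preconnected_of_eventuallyEq
    (hq.analyticOnNhd isOpen_ball) (convex_ball 0 η).isPreconnected ht h

end Pool.Agent.W587.MX
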